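import Pool.Agent.H18.GW.Targets

/-!
# Board gwd, row UB: the action on `Y / Y'`
-/

set_option autoImplicit false

open scoped commutatorElement

namespace Pool.Agent.H73.GWD

open Pool.Agent.H18.GW

theorem pf_UB (hUA : T_UA) : T_UB := by
  intro H _ Y hY hyp
  have := hY
  let φ : H → (Abelianization Y →* Abelianization Y) := fun h =>
    Abelianization.map (MulAut.conjNormal h : Y ≃* Y).toMonoidHom
  have φof : ∀ (h : H) (t : Y), φ h (Abelianization.of t) =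
      Abelianization.of (MulAut.conjNormal h t) := fun h t => by
    simp [φ]
  have φ1 : ∀ v, φ 1 v = v := by
    intro v
    obtain ⟨t, rfl⟩ := QuotientGroup.mk'_surjective _ v
    change φ 1 (Abelianization.of t) = Abelianization.of t
    rw [φof, map_one]
    rfl
  have φm : ∀ (g h : H) v, φ (g * h) v = φ g (φ h v) := by
    intro g h v
    obtain ⟨t, rfl⟩ := QuotientGroup.mk'_surjective _ v
    change φ (g * h) (Abelianization.of t) = φ g (φ h (Abelianization.of t))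
    rw [φof, φof, φof, map_mul]
    rfl
  let act : DistribMulAction H (Additive (Abelianization Y)) :=
    { smul := fun h v => Additive.ofMul (φ h (Additive.toMul v))
      one_smul := fun v => φ1 _
      mul_smul := fun g h v => φm g h _
      smul_zero := fun h => map_one (φ h)
      smul_add := fun h v w => map_mul (φ h) _ _ }
  let a : Y → Additive (Abelianization Y) := fun t => Additive.ofMul (Abelianization.of t)
  have am : ∀ s t : Y, a (s * t) = a s + a t := fun s t => by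
    change Additive.ofMul (Abelianization.of (s * t)) = _
    rw [map_mul]
    rfl
  have ainv : ∀ s : Y, a s⁻¹ = -a s := fun s => by
    change Additive.ofMul (Abelianization.of s⁻¹) = _
    rw [map_inv]
    rfl
  have a1 : a 1 = 0 := by
    change Additive.ofMul (Abelianization.of (1 : Y)) = _
    rw [map_one]
    rfl
  have aconj : ∀ (h : H) (t : Y), h • a t = a (MulAut.conjNormal h t) := fun h t => φof h t
  have asurj : ∀ v, ∃ t : Y, a t = v := fun v => QuotientGroup.mk'_surjective _ v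
  have aker : ∀ t : Y, a t = 0 ↔ (t : H) ∈ ⁅Y, Y⁆ := by
    intro t
    have h1 : a t = 0 ↔ t ∈ commutator Y := by
      change Abelianization.of t = 1 ↔ _
      rw [← MonoidHom.mem_ker, Abelianization.ker_of]
    rw [h1, ← Subgroup.map_subtype_commutator]
    constructor
    · intro h
      exact ⟨t, h, rfl⟩
    · rintro ⟨s, hs, hst⟩
      have : s = t := Subtype.ext hst
      exact this ▸ hs
  -- the commutator in the module
  have hcm : ∀ (t : Y) (x : H), ⁅(t : H), x⁆ ∈ Y := fun t x => by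
    rw [commutatorElement_def, mul_assoc, mul_assoc]
    refine Y.mul_mem t.2 ?_
    rw [← mul_assoc]
    exact hY.conj_mem _ (Y.inv_mem t.2) x
  have hac : ∀ (t : Y) (x : H) (ht : ⁅(t : H), x⁆ ∈ Y), a ⟨⁅(t : H), x⁆, ht⟩ = -(x • a t - a t) := by
    intro t x ht
    have h1 : (⟨⁅(t : H), x⁆, ht⟩ : Y) = t * (MulAut.conjNormal x t)⁻¹ := by
      apply Subtype.ext
      rw [Subgroup.coe_mul, Subgroup.coe_inv, MulAut.conjNormal_apply]
      change ⁅(t : H), x⁆ = _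
      rw [commutatorElement_def]
      group
    rw [h1, am, ainv, ← aconj]
    abel
  have hyp' : ∀ (x : H) (v : Additive (Abelianization Y)), x • (x • v - v) - (x • v - v) = 0 := by
    intro x v
    obtain ⟨t, rfl⟩ := asurj v
    have h1 := hac t x (hcm t x)
    have h2 := hac ⟨_, hcm t x⟩ x (hcm _ x)
    have h3 := (aker ⟨_, hcm ⟨_, hcm t x⟩ x⟩).2 (hyp t t.2 x)
    rw [h3, h1] at h2
    rw [smul_neg] at h2
    have h5 : -(-(x • (x • a t - a t)) - -(x • a t - a t)) =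
      x • (x • a t - a t) - (x • a t - a t) := by abel
    rw [← h5, ← h2]
  have key := hUA H (Additive (Abelianization Y)) hyp'
  -- two subgroups
  let S1 : Subgroup H :=
    { carrier := {t | ∃ ht : t ∈ Y, ∀ h : H, h • a ⟨t, ht⟩ - a ⟨t, ht⟩ = 0}
      one_mem' := ⟨Y.one_mem, fun h => by
        have : a ⟨1, Y.one_mem⟩ = 0 := a1
        rw [this, smul_zero, sub_zero]⟩
      mul_mem' := by
        rintro s t ⟨hs, hs'⟩ ⟨ht, ht'⟩
        refine ⟨Y.mul_mem hs ht, fun h => ?_⟩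
        have : a ⟨s * t, Y.mul_mem hs ht⟩ = a ⟨s, hs⟩ + a ⟨t, ht⟩ := am ⟨s, hs⟩ ⟨t, ht⟩
        rw [this, smul_add]
        have h1 := hs' h
        have h2 := ht' h
        rw [sub_eq_zero] at h1 h2
        rw [h1, h2, sub_self]
      inv_mem' := by
        rintro s ⟨hs, hs'⟩
        refine ⟨Y.inv_mem hs, fun h => ?_⟩
        have : a ⟨s⁻¹, Y.inv_mem hs⟩ = -a ⟨s, hs⟩ := ainv ⟨s, hs⟩
        rw [this, smul_neg]
        have h1 := hs' h
        rw [sub_eq_zero] at h1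
        rw [h1, sub_self] }
  let S2 : Subgroup H :=
    { carrier := {t | ∃ ht : t ∈ Y, ∀ g h : H,
        h • (g • a ⟨t, ht⟩ - a ⟨t, ht⟩) - (g • a ⟨t, ht⟩ - a ⟨t, ht⟩) = 0}
      one_mem' := ⟨Y.one_mem, fun g h => by
        have : a ⟨1, Y.one_mem⟩ = 0 := a1
        rw [this, smul_zero, sub_zero, smul_zero, sub_zero]⟩
      mul_mem' := by
        rintro s t ⟨hs, hs'⟩ ⟨ht, ht'⟩
        refine ⟨Y.mul_mem hs ht, fun g h => ?_⟩
        have : a ⟨s * t, Y.mul_mem hs ht⟩ = a ⟨s, hs⟩ + a ⟨t, ht⟩ := am ⟨s, hs⟩ ⟨t, ht⟩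
        rw [this]
        have h1 := hs' g h
        have h2 := ht' g h
        rw [sub_eq_zero] at h1 h2
        have h3 : g • (a ⟨s, hs⟩ + a ⟨t, ht⟩) - (a ⟨s, hs⟩ + a ⟨t, ht⟩) =
            (g • a ⟨s, hs⟩ - a ⟨s, hs⟩) + (g • a ⟨t, ht⟩ - a ⟨t, ht⟩) := by
          rw [smul_add]
          abel
        rw [h3, smul_add, h1, h2, sub_self]
      inv_mem' := by
        rintro s ⟨hs, hs'⟩
        refine ⟨Y.inv_mem hs, fun g h => ?_⟩
        have : a ⟨s⁻¹, Y.inv_mem hs⟩ = -a ⟨s, hs⟩ := ainv ⟨s, hs⟩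
        rw [this]
        have h1 := hs' g h
        rw [sub_eq_zero] at h1
        have h3 : g • (-a ⟨s, hs⟩) - -a ⟨s, hs⟩ = -(g • a ⟨s, hs⟩ - a ⟨s, hs⟩) := by
          rw [smul_neg]
          abel
        rw [h3, smul_neg, h1, sub_self] }
  have hS2 : ⁅Y, Pw 2 H⁆ ≤ S2 := by
    rw [Subgroup.commutator_le]
    intro t ht n hn
    refine ⟨hcm ⟨t, ht⟩ n, fun g h => ?_⟩
    have h1 := hac ⟨t, ht⟩ n (hcm ⟨t, ht⟩ n)
    have h2 := key n hn g h (a ⟨t, ht⟩)
    rw [sub_eq_zero] at h2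
    rw [show a ⟨⁅t, n⁆, hcm ⟨t, ht⟩ n⟩ = -(n • a ⟨t, ht⟩ - a ⟨t, ht⟩) from h1]
    have h3 : g • (-(n • a ⟨t, ht⟩ - a ⟨t, ht⟩)) - -(n • a ⟨t, ht⟩ - a ⟨t, ht⟩) =
        -(g • (n • a ⟨t, ht⟩ - a ⟨t, ht⟩) - (n • a ⟨t, ht⟩ - a ⟨t, ht⟩)) := by
      rw [smul_neg]
      abel
    rw [h3, smul_neg, h2, sub_self]
  have hS1 : ⁅⁅Y, Pw 2 H⁆, (⊤ : Subgroup H)⁆ ≤ S1 := by
    rw [Subgroup.commutator_le]
    intro t ht g _
    obtain ⟨htY, ht2⟩ := hS2 ht
    refine ⟨hcm ⟨t, htY⟩ g, fun h => ?_⟩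
    have h1 := hac ⟨t, htY⟩ g (hcm ⟨t, htY⟩ g)
    have h2 := ht2 g h
    rw [sub_eq_zero] at h2
    rw [show a ⟨⁅t, g⁆, hcm ⟨t, htY⟩ g⟩ = -(g • a ⟨t, htY⟩ - a ⟨t, htY⟩) from h1]
    rw [smul_neg, h2, sub_self]
  rw [Subgroup.commutator_le]
  intro t ht h _
  obtain ⟨htY, ht1⟩ := hS1 ht
  have h1 := hac ⟨t, htY⟩ h (hcm ⟨t, htY⟩ h)
  rw [show h • a ⟨t, htY⟩ - a ⟨t, htY⟩ = 0 from ht1 h, neg_zero] at h1
  exact (aker ⟨_, hcm ⟨t, htY⟩ h⟩).1 h1

end Pool.Agent.H73.GWD
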